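import Pool.Agent.Lib.helper7.ASZ

set_option autoImplicit false

/-! Low-degree vanishing for products of spheres, and the descent lemma for an involution. -/

namespace Pool.Agent.H.MP_efd99a_gt

open Set Pool.Agent.Lib.helper7.AS

section top
variable {R : Type} [CommRing R] {X Y W : Type} [PseudoMetricSpace X] [PseudoMetricSpace Y]
  [PseudoMetricSpace W]

theorem domP {c : R} {k : ℕ} {A : Set X} {B : Set Y} {C : Set W} (hA : IsCompact A)
    (hB : IsCompact B) (hC : IsCompact C)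
    (f : X → Y) (g : Y → X) (hf : ContinuousOn f A) (hg : ContinuousOn g B) (mf : MapsTo f A B)
    (mg : MapsTo g B A) (H : ℝ × X → X) (hH : ContinuousOn H (Icc 0 1 ×ˢ A))
    (hm : MapsTo H (Icc 0 1 ×ˢ A) A) (h0 : ∀ x ∈ A, H (0, x) = g (f x))
    (h1 : ∀ x ∈ A, H (1, x) = x) (h : P c k (B ×ˢ C)) : P c k (A ×ˢ C) := by
  refine dom (hA.prod hC) (hB.prod hC) (fun z => (f z.1, z.2)) (fun z => (g z.1, z.2)) ?_ ?_
    (fun z hz => ⟨mf hz.1, hz.2⟩) (fun z hz => ⟨mg hz.1, hz.2⟩)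
    (fun p => (H (p.1, p.2.1), p.2.2)) ?_ (fun p hp => ⟨hm ⟨hp.1, hp.2.1⟩, hp.2.2⟩)
    (fun z hz => by simp only [h0 _ hz.1]) (fun z hz => by simp only [h1 _ hz.1]) h
  · exact (hf.comp continuousOn_fst fun z hz => hz.1).prodMk continuousOn_snd
  · exact (hg.comp continuousOn_fst fun z hz => hz.1).prodMk continuousOn_snd
  · exact (hH.comp (f := fun p : ℝ × X × W => (p.1, p.2.1)) (by fun_prop)
      fun p hp => ⟨hp.1, hp.2.1⟩).prodMk (by fun_prop)

theorem P_ptP {c : R} {k : ℕ} {C : Set W} (hC : IsCompact C) (p : X) (h : P c k C) :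
    P c k ({p} ×ˢ C) :=
  dom (isCompact_singleton.prod hC) hC (fun z => z.2) (fun w => (p, w)) (by fun_prop)
    (by fun_prop) (fun _ hz => hz.2) (fun _ hw => ⟨rfl, hw⟩) (fun q => q.2) (by fun_prop)
    (fun _ hq => hq.2) (fun z hz => Prod.ext hz.1 rfl) (fun _ _ => rfl) h

theorem P_conn (c : R) {A : Set X} (hA : IsPreconnected A) : P c 1 A := by
  classical
  intro a ⟨e, he, ha⟩ _
  rcases A.eq_empty_or_nonempty with rfl | ⟨x0, hx0⟩
  · exact ⟨0, 1, one_pos, fun l hl => by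
      obtain ⟨x, rfl⟩ := List.length_eq_one_iff.mp hl.1
      exact (hl.2.1 x (by simp)).elim⟩
  have key : ∀ x ∈ A, ∀ y ∈ A, dist x y < e → a [x] = a [y] := by
    intro x hx y hy hd
    have := ha [x, y] ⟨rfl, by simp [hx, hy], by simp [he, hd, dist_comm y x]⟩
    simp only [dd, d, sub_zero, Pi.zero_apply] at this
    exact (sub_eq_zero.mp this).symm
  have hc : ∀ x ∈ A, a [x] = a [x0] := by
    intro x hx
    refine hA.induction₂' (fun x y => a [x] = a [y]) (fun x hx => ?_)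
      (fun _ _ _ _ _ _ h h' => h.trans h') hx hx0
    filter_upwards [self_mem_nhdsWithin, mem_nhdsWithin_of_mem_nhds (Metric.ball_mem_nhds x he)]
      with y hy hd
    exact ⟨(key y hy x hx hd).symm, key y hy x hx hd⟩
  refine ⟨fun _ => a [x0], 1, one_pos, fun l hl => ?_⟩
  obtain ⟨x, rfl⟩ := List.length_eq_one_iff.mp hl.1
  simp only [dd, d, sub_zero]
  exact hc x (hl.2.1 x (by simp))

theorem Sph_conn (n : ℕ) : IsConnected (Sph (n + 2)) := by
  have h : (1 : Cardinal) < Module.rank ℝ (EuclideanSpace ℝ (Fin (n + 2))) := by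
    rw [← Module.finrank_eq_rank]; simp; norm_cast; omega
  have := (isConnected_sphere h 0 zero_le_one).image (fun x => x.ofLp) (by fun_prop)
  convert this
  ext x
  constructor
  · intro hx
    refine ⟨WithLp.toLp 2 x, ?_, rfl⟩
    rw [mem_sphere_zero_iff_norm, EuclideanSpace.norm_eq]
    simp only [Real.norm_eq_abs, sq_abs]
    rw [show ∑ j, x j ^ 2 = 1 from hx, Real.sqrt_one]
  · rintro ⟨y, hy, rfl⟩
    rw [mem_sphere_zero_iff_norm, EuclideanSpace.norm_eq, Real.sqrt_eq_one] at hy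
    simp only [Real.norm_eq_abs, sq_abs] at hy
    exact hy

theorem P_capP (c : R) (k n : ℕ) (s : ℝ) (hs : s ^ 2 = 1) {C : Set W} (hC : IsCompact C)
    (h : P c k C) : P c k ((Sph (n + 1) ∩ {x | -1 ≤ 2 * (s * x 0)}) ×ˢ C) := by
  have h0 : ∀ x ∈ Sph (n + 1) ∩ {x | -1 ≤ 2 * (s * x 0)}, 0 < 1 + s * x 0 := fun x hx => by
    have := hx.2; simp only [mem_ofPred_eq] at this; linarith
  refine domP ((Sph_cpt _).inter_right (isClosed_le (by fun_prop) (by fun_prop)))
    isCompact_singleton hC (fun _ => (Pi.single 0 s : Fin (n + 1) → ℝ)) id continuousOn_const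
    continuousOn_id (fun _ _ => rfl) (fun _ h => h ▸ ⟨?_, ?_⟩) (cp s)
    (cp_cont s continuous_fst continuous_snd fun a ha => h0 _ ha.2)
    (fun p hp => ⟨cp_mem hs hp.1 hp.2.1 (h0 _ hp.2), ?_⟩) (fun x _ => cp_zero s x)
    (fun x hx => cp_one (h0 x hx)) (P_ptP hC _ h)
  · simp [Sph, Fin.sum_univ_succ, hs]
  · simp only [mem_ofPred_eq, id, Pi.single_eq_same]; nlinarith
  · have h1 := hp.2.2
    simp only [mem_ofPred_eq, cp, mvz, Fin.cons_zero] at h1 ⊢
    nlinarith [hp.1.1, hp.1.2, mul_nonneg hp.1.1 (by linarith : 0 ≤ 1 + 2 * (s * p.2 0))]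

theorem P_bandP (c : R) (k n : ℕ) {C : Set W} (hC : IsCompact C) (h : P c k (Sph n ×ˢ C)) :
    P c k ((Sph (n + 1) ∩ {x | -1 ≤ 2 * x 0 ∧ 2 * x 0 ≤ 1}) ×ˢ C) := by
  have h0 : ∀ x ∈ Sph (n + 1) ∩ {x | -1 ≤ 2 * x 0 ∧ 2 * x 0 ≤ 1}, 0 < 1 - x 0 ^ 2 := fun x hx => by
    obtain ⟨h1, h2⟩ := hx.2; nlinarith
  refine domP ((Sph_cpt _).inter_right (isClosed_Icc.preimage
    (f := fun x : Fin (n + 1) → ℝ => 2 * x 0) (by fun_prop))) (Sph_cpt n) hC
    (fun x j => √(1 / (1 - x 0 ^ 2)) * x j.succ) (fun y => Fin.cons 0 y) ?_ ?_ ?_ ?_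
    (fun p => mvz (p.1 * p.2 0) ((1 - (p.1 * p.2 0) ^ 2) / (1 - p.2 0 ^ 2)) p.2) ?_ ?_ ?_ ?_ h
  · refine continuousOn_pi.mpr fun j => ContinuousOn.mul (ContinuousOn.sqrt ?_) (by fun_prop)
    exact ContinuousOn.div (by fun_prop) (by fun_prop) fun a ha => (h0 a ha).ne'
  · refine (continuous_pi fun j => Fin.cases continuous_const (fun j => ?_) j).continuousOn
    exact continuous_apply j
  · intro x hx
    have := mvz_mem (z := 0) hx.1 (one_div_pos.mpr (h0 x hx)).le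
      (by rw [one_div_mul_cancel (h0 x hx).ne']; ring)
    simpa [Sph, Fin.sum_univ_succ, mvz] using this
  · intro y hy
    simpa [Sph, Fin.sum_univ_succ] using hy
  · exact mvz_cont (by fun_prop) (ContinuousOn.div (by fun_prop) (by fun_prop)
      fun a ha => (h0 _ ha.2).ne') (by fun_prop)
  · rintro ⟨t, x⟩ ⟨ht, hx⟩
    obtain ⟨h1, h2⟩ := hx.2
    simp only at ht hx h1 h2
    have h3 : -1 ≤ 2 * (t * x 0) ∧ 2 * (t * x 0) ≤ 1 := ⟨by nlinarith [ht.1, ht.2], by
      nlinarith [ht.1, ht.2]⟩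
    exact ⟨mvz_mem hx.1 (div_nonneg (by nlinarith [h3.1, h3.2]) (h0 x hx).le)
      (div_mul_cancel₀ _ (h0 x hx).ne'), h3⟩
  · intro x _
    simp [mvz]
  · intro x hx
    simp [div_self (h0 x hx).ne', mvz_one]

theorem P_sphP {C : Set W} (hC : IsCompact C) (hc : IsPreconnected C) (J : ℕ)
    (h : ∀ j ≤ J, P (0 : R) (j + 1) C) (k : ℕ) : k ≤ J → ∀ n, k ≤ n →
      P (0 : R) (k + 1) (Sph (n + 2) ×ˢ C) := by
  induction k with
  | zero => exact fun _ n _ => P_conn _ ((Sph_conn n).isPreconnected.prod hc)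
  | succ k ih =>
    intro hk n hn
    obtain ⟨n, rfl⟩ : ∃ m, n = m + 1 := ⟨n - 1, by omega⟩
    have e1 : (Sph (n + 1 + 2) ×ˢ C) ∩ {x | -1 ≤ 2 * x.1 0} =
        (Sph (n + 2 + 1) ∩ {x | -1 ≤ 2 * (1 * x 0)}) ×ˢ C := by
      ext x; simp only [mem_inter_iff, mem_prod, mem_ofPred_eq, one_mul]; tauto
    have e2 : (Sph (n + 1 + 2) ×ˢ C) ∩ {x | 2 * x.1 0 ≤ 1} =
        (Sph (n + 2 + 1) ∩ {x | -1 ≤ 2 * (-1 * x 0)}) ×ˢ C := by
      ext x; simp only [mem_inter_iff, mem_prod, mem_ofPred_eq, neg_mul, one_mul, mul_neg,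
        neg_le_neg_iff]; tauto
    have e3 : (Sph (n + 1 + 2) ×ˢ C) ∩ {x | -1 ≤ 2 * x.1 0 ∧ 2 * x.1 0 ≤ 1} =
        (Sph (n + 2 + 1) ∩ {x | -1 ≤ 2 * x 0 ∧ 2 * x 0 ≤ 1}) ×ˢ C := by
      ext x; simp only [mem_inter_iff, mem_prod, mem_ofPred_eq]; tauto
    refine mv (fun x => 2 * x.1 0)
      (((Sph_cpt _).prod hC).uniformContinuousOn_of_continuous (by fun_prop)) ?_ ?_ ?_ ?_ ?_
    · rw [e1]; exact P_capP _ _ _ _ (by norm_num) hC (h k (by omega))
    · rw [e1]; exact P_capP _ _ _ _ (by norm_num) hC (h (k + 1) hk)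
    · rw [e2]; exact P_capP _ _ _ _ (by norm_num) hC (h k (by omega))
    · rw [e2]; exact P_capP _ _ _ _ (by norm_num) hC (h (k + 1) hk)
    · rw [e3]; exact P_bandP _ _ _ hC (ih (by omega) n (by omega))

theorem P_sph0 (k : ℕ) : ∀ n, k ≤ n → P (0 : R) (k + 1) (Sph (n + 2)) := by
  induction k with
  | zero => exact fun n _ => P_conn _ (Sph_conn n).isPreconnected
  | succ k ih =>
    intro n hn
    obtain ⟨n, rfl⟩ : ∃ m, n = m + 1 := ⟨n - 1, by omega⟩
    exact mv (fun x => 2 * x 0) ((Sph_cpt _).uniformContinuousOn_of_continuous (by fun_prop))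
        (P_cap1 _ _ _) (P_cap1 _ _ _) (P_cap2 _ _ _) (P_cap2 _ _ _)
        (P_band _ _ _ (ih n (by omega)))

end top

abbrev V : Type := Fin 4 → ℝ

def S3 : Set (V × V × V) := Sph 4 ×ˢ Sph 4 ×ˢ Sph 4

theorem S3_cpt : IsCompact S3 := (Sph_cpt 4).prod ((Sph_cpt 4).prod (Sph_cpt 4))

theorem S3_conn : IsConnected S3 := (Sph_conn 2).prod ((Sph_conn 2).prod (Sph_conn 2))

theorem P_S3 (j : ℕ) (hj : j ≤ 2) : P (0 : ZMod 2) (j + 1) S3 :=
  P_sphP ((Sph_cpt 4).prod (Sph_cpt 4)) ((Sph_conn 2).prod (Sph_conn 2)).isPreconnected 2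
    (fun i hi => P_sphP (Sph_cpt 4) (Sph_conn 2).isPreconnected 2
      (fun i hi => P_sph0 i 2 hi) i hi 2 hi) j hj 2 hj

section alg
variable {Y : Type}

def cup (φ : Y → ZMod 2) (b : List Y → ZMod 2) : List Y → ZMod 2
  | [] => 0
  | x :: l => φ x * b (x :: l)

def mon : ℕ → (ℕ → Y → ZMod 2) → List Y → ZMod 2
  | 0, _ => dd fun _ => 1
  | k + 1, Φ => dd (cup (Φ 0) (mon k fun j => Φ (j + 1)))

theorem d_mon (k : ℕ) (Φ : ℕ → Y → ZMod 2) (l : List Y) : d l (mon k Φ) = 0 := by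
  cases k <;> exact d_d _ _

theorem mon_nil (k : ℕ) (Φ : ℕ → Y → ZMod 2) : mon k Φ [] = 0 := by
  cases k <;> rfl

theorem mon_succ (k : ℕ) (Φ : ℕ → Y → ZMod 2) (x y : Y) (l : List Y) :
    mon (k + 1) Φ (x :: y :: l) = (Φ 0 y - Φ 0 x) * mon k (fun j => Φ (j + 1)) (y :: l) := by
  have h := d_mon k (fun j => Φ (j + 1)) (x :: y :: l)
  rw [d] at h
  rw [mon, dd, d]
  simp only [cup]
  rw [d_mul]
  linear_combination Φ 0 x * h

def pm : (ℕ → Y → Y → ZMod 2) → List Y → ZMod 2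
  | W, x :: y :: l => W 0 x y * pm (fun j => W (j + 1)) (y :: l)
  | _, _ => 1

theorem mon_eq (k : ℕ) (Φ : ℕ → Y → ZMod 2) (W : ℕ → Y → Y → ZMod 2) (l : List Y)
    (hl : l.length = k + 1) (h : ∀ j, ∀ x ∈ l, ∀ y ∈ l, W j x y = Φ j y - Φ j x) :
    pm W l = mon k Φ l := by
  induction k generalizing Φ W l with
  | zero =>
    obtain ⟨x, rfl⟩ := List.length_eq_one_iff.mp hl
    simp [pm, mon, dd, d]
  | succ k ih =>
    match l, hl with
    | x :: y :: l, hl =>
      rw [pm, mon_succ, h 0 x (by simp) y (by simp), ih _ _ (y :: l) (by simpa using hl)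
        fun j a ha b hb => h (j + 1) a (by simp [ha]) b (by simp [hb])]

theorem pm_map {T : Type} (f : T → Y) (W : ℕ → Y → Y → ZMod 2) (l : List T) :
    pm W (l.map f) = pm (fun j x y => W j (f x) (f y)) l := by
  induction l generalizing W with
  | nil => simp [pm]
  | cons x l ih =>
    cases l with
    | nil => simp [pm]
    | cons y l =>
      have := ih fun j => W (j + 1)
      simp only [List.map_cons] at this ⊢
      rw [pm, pm, this]

theorem mon_inv {A : Set Y} (g : Y → Y) (k : ℕ) (Φ : ℕ → Y → ZMod 2) (ε : ℕ → ZMod 2)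
    (h : ∀ j, ∀ z ∈ A, Φ j (g z) = Φ j z + ε j) (l : List Y) (hl : ∀ z ∈ l, z ∈ A) :
    mon k Φ (l.map g) = mon k Φ l := by
  induction k generalizing Φ ε l with
  | zero => simp only [mon, dd]; rw [← d_map]
  | succ k ih =>
    simp only [mon, dd]
    rw [← d_map, d_congr l _ (fun m => cup (Φ 0) (mon k fun j => Φ (j + 1)) m +
      ε 0 * mon k (fun j => Φ (j + 1)) m), d_add, d_mul, d_mon, mul_zero, add_zero]
    intro m hm _
    cases m with
    | nil => simp [cup, mon_nil]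
    | cons x m =>
      have := ih (fun j => Φ (j + 1)) (fun j => ε (j + 1)) (fun j => h (j + 1)) (x :: m)
        fun z hz => hl z (hm.subset hz)
      simp only [List.map_cons, cup] at this ⊢
      rw [this, h 0 x (hl x (hm.subset (by simp)))]; ring

variable [PseudoMetricSpace Y]

theorem descent {A : Set Y} (hA : A.Nonempty) (g : Y → Y) (hg : UniformContinuousOn g A)
    (mg : MapsTo g A A) (gg : ∀ z ∈ A, g (g z) = z) {ι : Type} [Fintype ι] (k : ℕ)
    (hP : ∀ j < k, P (0 : ZMod 2) (j + 1) A) (c : ι → ZMod 2) (Φ : ι → ℕ → Y → ZMod 2)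
    (ε : ι → ℕ → ZMod 2) (h : ∀ i j, ∀ z ∈ A, Φ i j (g z) = Φ i j z + ε i j)
    (u : List Y → ZMod 2) (hu : ∀ l, (∀ z ∈ l, z ∈ A) → u (l.map g) = u l) (u0 : u [] = 0)
    (hz : Z (k + 1) A (fun l => ∑ i, c i * mon k (Φ i) l) (dd u)) :
    ∑ i, c i * ∏ j ∈ Finset.range k, ε i j = 0 := by
  induction k generalizing c Φ ε u with
  | zero =>
    obtain ⟨e, he, hz⟩ := hz
    obtain ⟨x, hx⟩ := hA
    have := hz [x] ⟨rfl, by simp [hx], by simp [he]⟩
    simpa [mon, dd, d, u0] using this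
  | succ k ih =>
    obtain ⟨v, hv⟩ := P_zero (hP k (by omega))
      (fun l => ∑ i, c i * cup (Φ i 0) (mon k fun j => Φ i (j + 1)) l - u l)
      (hz.one fun l e => by
        simp only [dd, d_sub, d_sum, d_mul, mon, Pi.zero_apply] at e ⊢; rw [e, sub_self])
    obtain ⟨e, he, hw⟩ := (hv.map hg mg).two hv
      (c := fun l => (∑ i, c i * cup (Φ i 0) (mon k fun j => Φ i (j + 1)) (l.map g) - u (l.map g))
        - (∑ i, c i * cup (Φ i 0) (mon k fun j => Φ i (j + 1)) l - u l))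
      (c' := dd fun l => v (l.map g) - v l) fun l e1 e2 => by
        rw [e1, e2, dd, dd, dd, d_sub, d_map]
    have := ih (fun j hj => hP j (by omega)) (fun i => c i * ε i 0) (fun i j => Φ i (j + 1))
      (fun i j => ε i (j + 1)) (fun i j => h i (j + 1)) (fun l => v (l.map g) - v l)
      (fun l hl => by
        have : (l.map g).map g = l := by
          rw [List.map_map]
          conv_rhs => rw [← List.map_id l]
          exact List.map_congr_left fun x hx => gg x (hl x hx)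
        simp only [this, CharTwo.sub_eq_add, add_comm]) (by simp)
      ⟨e, he, fun l hl => Eq.trans ?_ (hw l hl)⟩
    · simpa only [Finset.prod_range_succ', mul_assoc, mul_comm (ε _ 0)] using this
    · have hl1 := hl.1
      match l, hl1 with
      | x :: l, _ =>
        simp only [hu _ hl.2.1, sub_sub_sub_cancel_right, ← Finset.sum_sub_distrib]
        refine Finset.sum_congr rfl fun i _ => ?_
        have := mon_inv g k (fun j => Φ i (j + 1)) (fun j => ε i (j + 1)) (fun j => h i (j + 1))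
          (x :: l) hl.2.1
        simp only [List.map_cons, cup] at this ⊢
        rw [this, h i 0 x (hl.2.1 x (by simp))]; ring

end alg

end Pool.Agent.H.MP_efd99a_gt
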