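import Mathlib

set_option autoImplicit false

namespace Pool.Agent.H.MP_efd99a_gt

open Set Filter Topology
open scoped ContDiff

/-- the Euclidean space of real `4 x 4 x 4` arrays -/
abbrev E : Type := EuclideanSpace ℝ (Fin 4 × Fin 4 × Fin 4)

/-- unit rank-one tensors -/
def M : Set E :=
  {T | ∃ p q r : Fin 4 → ℝ, ∑ i, p i ^ 2 = 1 ∧ ∑ i, q i ^ 2 = 1 ∧ ∑ i, r i ^ 2 = 1 ∧
    ∀ i j k, T (i, j, k) = p i * q j * r k}

/-- embedded smooth submanifold of dimension nine -/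
def IsSubmanifold9 (A : Set E) : Prop :=
  ∀ x ∈ A, ∃ (U : Set E) (φ : (Fin 3 → Fin 3 → ℝ) → E) (ψ : E → Fin 3 → Fin 3 → ℝ),
    IsOpen U ∧ x ∈ U ∧ ContDiff ℝ ∞ φ ∧ ContDiffOn ℝ ∞ ψ U ∧ range φ = A ∩ U ∧
      ∀ w, ψ (φ w) = w

/-- tangent vectors: velocities of curves in `A` through `x` -/
def tang {W : Type} [NormedAddCommGroup W] [InnerProductSpace ℝ W] (A : Set W) (x : W) : Set W :=
  {v | ∃ c : ℝ → W, c 0 = x ∧ (∀ᶠ s in 𝓝 0, c s ∈ A) ∧ HasDerivAt c v 0}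

/-- `s x` is a linear isometry preserving `A`, fixing `x`, and `-id` on the tangent space at `x` -/
def IsSymmetries {W : Type} [NormedAddCommGroup W] [InnerProductSpace ℝ W] (A : Set W)
    (s : W → W ≃ₗᵢ[ℝ] W) : Prop :=
  ∀ x ∈ A, s x '' A = A ∧ s x x = x ∧ ∀ v ∈ tang A x, s x v = -v

/-- antipodal sets -/
def Antipodal {W : Type} [NormedAddCommGroup W] [InnerProductSpace ℝ W] (s : W → W ≃ₗᵢ[ℝ] W)
    (B : Set W) : Prop :=
  ∀ x ∈ B, ∀ y ∈ B, s x y = y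

/-- dimension of the image of `Z` in the quotient by `B` -/
noncomputable def qdim {W : Type} [AddCommGroup W] [Module (ZMod 2) W]
    (Z B : Submodule (ZMod 2) W) : Cardinal :=
  Module.rank (ZMod 2) (Z.map B.mkQ)

/-- locally zero Alexander-Spanier cochains on `n`-tuples -/
def LocZero {X : Type} [TopologicalSpace X] {n : ℕ} (a : (Fin n → X) → ZMod 2) : Prop :=
  ∀ x : X, ∃ U ∈ 𝓝 x, ∀ t : Fin n → X, (∀ i, t i ∈ U) → a t = 0

/-- the Alexander-Spanier coboundary -/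
def delta {X : Type} {n : ℕ} (a : (Fin n → X) → ZMod 2) (t : Fin (n + 1) → X) : ZMod 2 :=
  ∑ i : Fin (n + 1), (-1) ^ (i : ℕ) * a fun j => t (i.succAbove j)

/-- `k`-cocycles -/
def Zk (X : Type) [TopologicalSpace X] (k : ℕ) : Submodule (ZMod 2) ((Fin (k + 1) → X) → ZMod 2) :=
  Submodule.span (ZMod 2) {a | LocZero (delta a)}

/-- `k`-coboundaries -/
def Bk (X : Type) [TopologicalSpace X] (k : ℕ) : Submodule (ZMod 2) ((Fin (k + 1) → X) → ZMod 2) :=
  Submodule.span (ZMod 2) {a | LocZero a ∨ (k ≠ 0 ∧ ∃ b : (Fin k → X) → ZMod 2, a = delta b)}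

/-- the `k`-th mod 2 Betti number: dimension of cocycles modulo coboundaries -/
noncomputable def betti (X : Type) [TopologicalSpace X] (k : ℕ) : Cardinal :=
  qdim (Zk X k) (Bk X k)

end Pool.Agent.H.MP_efd99a_gt
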