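import Pool.Agent.H.MP_efd99a_gt.A
import Pool.Agent.H.MP_efd99a_gt.D

set_option autoImplicit false

/-! Geometry of the manifold of unit rank-one tensors: symmetries. -/

namespace Pool.Agent.H.MP_efd99a_gt

open Set Filter Topology Matrix Pool.Agent.Lib.helper7.AS
open scoped ContDiff RealInnerProductSpace Kronecker

def tens (z : V × V × V) : E := WithLp.toLp 2 fun a => z.1 a.1 * z.2.1 a.2.1 * z.2.2 a.2.2

theorem tens_apply (z : V × V × V) (a : Fin 4 × Fin 4 × Fin 4) :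
    tens z a = z.1 a.1 * z.2.1 a.2.1 * z.2.2 a.2.2 := rfl

theorem tens_cont : Continuous tens := by unfold tens; fun_prop

theorem M_eq : M = tens '' S3 := by
  ext T
  constructor
  · rintro ⟨p, q, r, hp, hq, hr, h⟩
    exact ⟨(p, q, r), ⟨hp, hq, hr⟩, by ext ⟨i, j, k⟩; exact (h i j k).symm⟩
  · rintro ⟨z, hz, rfl⟩
    exact ⟨z.1, z.2.1, z.2.2, hz.1, hz.2.1, hz.2.2, fun _ _ _ => rfl⟩

theorem tens_mem {z : V × V × V} (hz : z ∈ S3) : tens z ∈ M := M_eq ▸ mem_image_of_mem _ hz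

theorem M_cpt : IsCompact M := M_eq ▸ S3_cpt.image tens_cont

theorem M_conn : IsConnected M := M_eq ▸ S3_conn.image _ tens_cont.continuousOn

theorem inner_E (x y : E) : ⟪x, y⟫ = x.ofLp ⬝ᵥ y.ofLp := by
  simp [PiLp.inner_apply, dotProduct, mul_comm]

theorem inner_tens (z w : V × V × V) :
    ⟪tens z, tens w⟫ = (z.1 ⬝ᵥ w.1) * (z.2.1 ⬝ᵥ w.2.1) * (z.2.2 ⬝ᵥ w.2.2) := by
  simp only [inner_E, dotProduct, tens, Fintype.sum_prod_type, Fin.sum_univ_four]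
  ring

theorem dot_self {p : V} (hp : p ∈ Sph 4) : p ⬝ᵥ p = 1 := by
  have : ∑ j, p j ^ 2 = 1 := hp
  simpa only [dotProduct, sq] using this

theorem mem_of_dot {p : V} (hp : p ⬝ᵥ p = 1) : p ∈ Sph 4 := by
  show ∑ j, p j ^ 2 = 1
  simpa only [dotProduct, sq] using hp

theorem cs_aux {p q : V} (hp : p ∈ Sph 4) (hq : q ∈ Sph 4) :
    (q - (p ⬝ᵥ q) • p) ⬝ᵥ (q - (p ⬝ᵥ q) • p) = 1 - (p ⬝ᵥ q) ^ 2 := by
  simp only [sub_dotProduct, dotProduct_sub, smul_dotProduct, dotProduct_smul, dot_self hp,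
    dot_self hq, dotProduct_comm q p, smul_eq_mul]
  ring

theorem dot_nn (p : V) : 0 ≤ p ⬝ᵥ p := Finset.sum_nonneg fun _ _ => mul_self_nonneg _

theorem cs {p q : V} (hp : p ∈ Sph 4) (hq : q ∈ Sph 4) : (p ⬝ᵥ q) ^ 2 ≤ 1 := by
  have := dot_nn (q - (p ⬝ᵥ q) • p)
  rw [cs_aux hp hq] at this
  linarith

theorem eq_of_cs {p q : V} (hp : p ∈ Sph 4) (hq : q ∈ Sph 4) (h : (p ⬝ᵥ q) ^ 2 = 1) :
    q = (p ⬝ᵥ q) • p := by
  have := cs_aux hp hq
  rw [h, sub_self, dotProduct_self_eq_zero] at this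
  exact sub_eq_zero.mp this

theorem three_big {a b c t : ℝ} (ha : a ^ 2 ≤ 1) (hb : b ^ 2 ≤ 1) (hc : c ^ 2 ≤ 1)
    (h : t ≤ (a * b * c) ^ 2) : t ≤ a ^ 2 ∧ t ≤ b ^ 2 ∧ t ≤ c ^ 2 := by
  have h1 := mul_le_one₀ ha (sq_nonneg b) hb
  have h2 := mul_le_one₀ ha (sq_nonneg c) hc
  have h3 := mul_le_one₀ hb (sq_nonneg c) hc
  refine ⟨h.trans ?_, h.trans ?_, h.trans ?_⟩
  · nlinarith [mul_le_mul_of_nonneg_left h3 (sq_nonneg a)]
  · nlinarith [mul_le_mul_of_nonneg_left h2 (sq_nonneg b)]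
  · nlinarith [mul_le_mul_of_nonneg_left h1 (sq_nonneg c)]

theorem norm_tens {z : V × V × V} (hz : z ∈ S3) : ⟪tens z, tens z⟫ = 1 := by
  rw [inner_tens, dot_self hz.1, dot_self hz.2.1, dot_self hz.2.2]; norm_num

theorem tens_inj {z w : V × V × V} (hz : z ∈ S3) (hw : w ∈ S3) (h : tens z = tens w) :
    (z.1 ⬝ᵥ w.1) ^ 2 = 1 ∧ (z.2.1 ⬝ᵥ w.2.1) ^ 2 = 1 ∧ (z.2.2 ⬝ᵥ w.2.2) ^ 2 = 1 := by
  have h1 := norm_tens hz
  nth_rewrite 2 [h] at h1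
  rw [inner_tens] at h1
  have := three_big (t := 1) (cs hz.1 hw.1) (cs hz.2.1 hw.2.1) (cs hz.2.2 hw.2.2)
    (by rw [h1]; norm_num)
  exact ⟨le_antisymm (cs hz.1 hw.1) this.1, le_antisymm (cs hz.2.1 hw.2.1) this.2.1,
    le_antisymm (cs hz.2.2 hw.2.2) this.2.2⟩

noncomputable def Rm (p : V) : Matrix (Fin 4) (Fin 4) ℝ := (2 : ℝ) • vecMulVec p p - 1

theorem Rm_mulVec (p v : V) : Rm p *ᵥ v = (2 * (p ⬝ᵥ v)) • p - v := by
  rw [Rm, sub_mulVec, one_mulVec, smul_mulVec, vecMulVec_mulVec]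
  ext i; simp; ring

theorem Rm_tr (p : V) : (Rm p)ᵀ = Rm p := by
  rw [Rm, transpose_sub, transpose_smul, transpose_vecMulVec, transpose_one]

theorem Rm_sq {p : V} (hp : p ∈ Sph 4) : Rm p * Rm p = 1 := by
  refine Matrix.toLin'.injective (LinearMap.ext fun v => ?_)
  rw [toLin'_apply, toLin'_apply, ← mulVec_mulVec, Rm_mulVec, Rm_mulVec, one_mulVec,
    dotProduct_sub, dotProduct_smul, dot_self hp]
  module

theorem Rm_mem {p v : V} (hp : p ∈ Sph 4) (hv : v ∈ Sph 4) : Rm p *ᵥ v ∈ Sph 4 := by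
  refine mem_of_dot ?_
  rw [dotProduct_mulVec, ← mulVec_transpose, Rm_tr, mulVec_mulVec, Rm_sq hp, one_mulVec,
    dot_self hv]

noncomputable def Km (z : V × V × V) :
    Matrix (Fin 4 × Fin 4 × Fin 4) (Fin 4 × Fin 4 × Fin 4) ℝ :=
  Rm z.1 ⊗ₖ (Rm z.2.1 ⊗ₖ Rm z.2.2)

noncomputable def Kl (z : V × V × V) : E →ₗ[ℝ] E := Matrix.toEuclideanLin (Km z)

theorem Kl_ofLp (z : V × V × V) (x : E) : (Kl z x).ofLp = Km z *ᵥ x.ofLp :=
  (Matrix.ofLp_toLpLin 2 2 (Km z) x).trans (toLin'_apply _ _)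

theorem Kl_tens (z w : V × V × V) :
    Kl z (tens w) = tens (Rm z.1 *ᵥ w.1, Rm z.2.1 *ᵥ w.2.1, Rm z.2.2 *ᵥ w.2.2) := by
  ext ⟨i, j, k⟩
  rw [Kl_ofLp, tens_apply]
  simp only [mulVec, dotProduct, Km, tens, Fintype.sum_prod_type, kroneckerMap_apply]
  rw [mul_assoc, Finset.sum_mul_sum Finset.univ Finset.univ (fun a => Rm z.2.1 j a * w.2.1 a),
    Finset.sum_mul]
  refine Finset.sum_congr rfl fun a _ => ?_
  rw [Finset.mul_sum]
  refine Finset.sum_congr rfl fun b _ => ?_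
  rw [Finset.mul_sum]
  exact Finset.sum_congr rfl fun c _ => by ring

theorem Km_sq {z : V × V × V} (hz : z ∈ S3) : Km z * Km z = 1 := by
  rw [Km, ← mul_kronecker_mul, ← mul_kronecker_mul, Rm_sq hz.1, Rm_sq hz.2.1, Rm_sq hz.2.2,
    one_kronecker_one, one_kronecker_one]

theorem Km_tr (z : V × V × V) : (Km z)ᵀ = Km z := by
  rw [Km, ← kroneckerMap_transpose, ← kroneckerMap_transpose, Rm_tr, Rm_tr, Rm_tr]

theorem Kl_inner {z : V × V × V} (hz : z ∈ S3) (x y : E) : ⟪Kl z x, Kl z y⟫ = ⟪x, y⟫ := by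
  rw [inner_E, inner_E, Kl_ofLp, Kl_ofLp, dotProduct_mulVec, ← mulVec_transpose, Km_tr,
    mulVec_mulVec, Km_sq hz, one_mulVec]

theorem Kl_Kl {z : V × V × V} (hz : z ∈ S3) (x : E) : Kl z (Kl z x) = x := by
  ext a
  rw [Kl_ofLp, Kl_ofLp, mulVec_mulVec, Km_sq hz, one_mulVec]

noncomputable def Ki (z : V × V × V) (hz : z ∈ S3) : E ≃ₗᵢ[ℝ] E :=
  ((Kl z).isometryOfInner (Kl_inner hz)).toLinearIsometryEquiv rfl

theorem Ki_apply (z : V × V × V) (hz : z ∈ S3) (x : E) : Ki z hz x = Kl z x := rfl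

theorem Kl_maps {z : V × V × V} (hz : z ∈ S3) {x : E} (hx : x ∈ M) : Kl z x ∈ M := by
  obtain ⟨w, hw, rfl⟩ := M_eq ▸ hx
  rw [Kl_tens]
  exact tens_mem ⟨Rm_mem hz.1 hw.1, Rm_mem hz.2.1 hw.2.1, Rm_mem hz.2.2 hw.2.2⟩

theorem Ki_image (z : V × V × V) (hz : z ∈ S3) : Ki z hz '' M = M :=
  Subset.antisymm (by rintro _ ⟨x, hx, rfl⟩; exact Kl_maps hz hx)
    fun x hx => ⟨Kl z x, Kl_maps hz hx, Kl_Kl hz x⟩

theorem Rm_self {p : V} (hp : p ∈ Sph 4) : Rm p *ᵥ p = p := by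
  rw [Rm_mulVec, dot_self hp]; module

theorem Rm_perp {p v : V} (h : p ⬝ᵥ v = 0) : Rm p *ᵥ v = -v := by
  rw [Rm_mulVec, h]; module

theorem Kl_self {z : V × V × V} (hz : z ∈ S3) : Kl z (tens z) = tens z := by
  rw [Kl_tens, Rm_self hz.1, Rm_self hz.2.1, Rm_self hz.2.2]

/-- contractions with two of the factors -/
def c1 (z : V × V × V) (y : E) : V := fun i => ∑ j, ∑ k, y (i, j, k) * z.2.1 j * z.2.2 k
def c2 (z : V × V × V) (y : E) : V := fun j => ∑ i, ∑ k, y (i, j, k) * z.1 i * z.2.2 k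
def c3 (z : V × V × V) (y : E) : V := fun k => ∑ i, ∑ j, y (i, j, k) * z.1 i * z.2.1 j

theorem c1_tens (z w : V × V × V) :
    c1 z (tens w) = ((z.2.1 ⬝ᵥ w.2.1) * (z.2.2 ⬝ᵥ w.2.2)) • w.1 := by
  ext i; simp only [c1, tens_apply, dotProduct, Fin.sum_univ_four, Pi.smul_apply, smul_eq_mul]; ring

theorem c2_tens (z w : V × V × V) :
    c2 z (tens w) = ((z.1 ⬝ᵥ w.1) * (z.2.2 ⬝ᵥ w.2.2)) • w.2.1 := by
  ext i; simp only [c2, tens_apply, dotProduct, Fin.sum_univ_four, Pi.smul_apply, smul_eq_mul]; ring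

theorem c3_tens (z w : V × V × V) :
    c3 z (tens w) = ((z.1 ⬝ᵥ w.1) * (z.2.1 ⬝ᵥ w.2.1)) • w.2.2 := by
  ext i; simp only [c3, tens_apply, dotProduct, Fin.sum_univ_four, Pi.smul_apply, smul_eq_mul]; ring

theorem c_dot (z : V × V × V) (y : E) : z.1 ⬝ᵥ c1 z y = ⟪tens z, y⟫ ∧
    z.2.1 ⬝ᵥ c2 z y = ⟪tens z, y⟫ ∧ z.2.2 ⬝ᵥ c3 z y = ⟪tens z, y⟫ := by
  simp only [inner_E, dotProduct, tens, Fintype.sum_prod_type, Fin.sum_univ_four, c1, c2, c3]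
  refine ⟨?_, ?_, ?_⟩ <;> ring

theorem c_id (z : V × V × V) {y : E} (hy : y ∈ M) (a : Fin 4 × Fin 4 × Fin 4) :
    y a * ⟪tens z, y⟫ ^ 2 = c1 z y a.1 * c2 z y a.2.1 * c3 z y a.2.2 := by
  obtain ⟨w, -, rfl⟩ := M_eq ▸ hy
  simp only [c1_tens, c2_tens, c3_tens, inner_tens, tens_apply, Pi.smul_apply, smul_eq_mul]
  ring

theorem Kl_tang {z : V × V × V} (hz : z ∈ S3) {v : E} (hv : v ∈ tang M (tens z)) :
    Kl z v = -v := by
  obtain ⟨c, h0, hM, hc⟩ := hv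
  have hco : ∀ a, HasDerivAt (fun s => c s a) (v a) 0 := fun a =>
    (EuclideanSpace.proj (𝕜 := ℝ) a).hasFDerivAt.comp_hasDerivAt (0 : ℝ) hc
  have hn : ⟪tens z, v⟫ = 0 := by
    have h1 := hc.inner ℝ hc
    have h2 : (fun s => ⟪c s, c s⟫) =ᶠ[𝓝 0] fun _ => (1 : ℝ) := hM.mono fun s hs => by
      obtain ⟨w, hw, e⟩ := M_eq ▸ hs
      simp only [← e, norm_tens hw]
    have := h1.unique ((hasDerivAt_const (0 : ℝ) (1 : ℝ)).congr_of_eventuallyEq h2)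
    rw [h0, real_inner_comm (tens z) v] at this
    linarith
  have ht : HasDerivAt (fun s => ⟪tens z, c s⟫) ⟪tens z, v⟫ 0 := by
    simpa using (hasDerivAt_const (0 : ℝ) (tens z)).inner ℝ hc
  have d1 : ∀ i, HasDerivAt (fun s => c1 z (c s) i) (c1 z v i) 0 := fun i =>
    HasDerivAt.fun_sum fun j _ => HasDerivAt.fun_sum fun k _ => ((hco _).mul_const _).mul_const _
  have d2 : ∀ i, HasDerivAt (fun s => c2 z (c s) i) (c2 z v i) 0 := fun i =>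
    HasDerivAt.fun_sum fun j _ => HasDerivAt.fun_sum fun k _ => ((hco _).mul_const _).mul_const _
  have d3 : ∀ i, HasDerivAt (fun s => c3 z (c s) i) (c3 z v i) 0 := fun i =>
    HasDerivAt.fun_sum fun j _ => HasDerivAt.fun_sum fun k _ => ((hco _).mul_const _).mul_const _
  have e : v = tens (c1 z v, z.2.1, z.2.2) + tens (z.1, c2 z v, z.2.2) +
      tens (z.1, z.2.1, c3 z v) := by
    ext a
    have h1 := (hco a).mul (ht.pow 2)
    have h2 := ((d1 a.1).mul (d2 a.2.1)).mul (d3 a.2.2)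
    have := h1.unique (h2.congr_of_eventuallyEq (hM.mono fun s hs => c_id z hs a))
    simp only [Pi.mul_apply, Pi.pow_apply, h0, hn, norm_tens hz, c1_tens, c2_tens, c3_tens,
      dot_self hz.1, dot_self hz.2.1, dot_self hz.2.2, mul_one, one_smul] at this
    simp only [PiLp.add_apply, tens_apply]
    linear_combination this
  obtain ⟨p1, p2, p3⟩ := c_dot z v
  rw [hn] at p1 p2 p3
  rw [e, map_add, map_add, Kl_tens, Kl_tens, Kl_tens]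
  simp only [Rm_perp p1, Rm_perp p2, Rm_perp p3, Rm_self hz.1, Rm_self hz.2.1, Rm_self hz.2.2]
  ext a
  simp only [PiLp.add_apply, PiLp.neg_apply, tens_apply, Pi.neg_apply]
  ring

end Pool.Agent.H.MP_efd99a_gt
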