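import Pool.Agent.H.MP_efd99a_gt.B

set_option autoImplicit false

/-! Charts, and the bound on antipodal sets. -/

namespace Pool.Agent.H.MP_efd99a_gt

open Set Filter Topology Matrix Pool.Agent.Lib.helper7.AS
open scoped ContDiff RealInnerProductSpace

noncomputable def Nm (a : Fin 4) (u : Fin 3 → ℝ) : V :=
  (√(1 + ∑ i, u i ^ 2))⁻¹ • (Fin.insertNth a 1 u : Fin 4 → ℝ)

theorem den_pos (u : Fin 3 → ℝ) : 0 < 1 + ∑ i, u i ^ 2 := by positivity

theorem Nm_same (a : Fin 4) (u : Fin 3 → ℝ) : Nm a u a = (√(1 + ∑ i, u i ^ 2))⁻¹ := by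
  simp [Nm]

theorem Nm_succ (a : Fin 4) (u : Fin 3 → ℝ) (i : Fin 3) :
    Nm a u (a.succAbove i) = (√(1 + ∑ i, u i ^ 2))⁻¹ * u i := by
  simp [Nm]

theorem Nm_pos (a : Fin 4) (u : Fin 3 → ℝ) : 0 < Nm a u a := by
  rw [Nm_same]; exact inv_pos.mpr (Real.sqrt_pos.mpr (den_pos u))

theorem Nm_mem (a : Fin 4) (u : Fin 3 → ℝ) : Nm a u ∈ Sph 4 := by
  show ∑ j, Nm a u j ^ 2 = 1
  rw [Fin.sum_univ_succAbove _ a]
  simp only [Nm_same, Nm_succ, mul_pow, ← Finset.mul_sum, inv_pow, Real.sq_sqrt (den_pos u).le]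
  have := (den_pos u).ne'
  field_simp

theorem Nm_smooth (a j : Fin 4) : ContDiff ℝ ∞ fun u => Nm a u j := by
  have h : ContDiff ℝ ∞ fun u : Fin 3 → ℝ => (√(1 + ∑ i, u i ^ 2))⁻¹ :=
    (ContDiff.sqrt (by fun_prop) fun u => (den_pos u).ne').inv
      fun u => (Real.sqrt_pos.mpr (den_pos u)).ne'
  rcases Fin.eq_self_or_eq_succAbove a j with rfl | ⟨i, rfl⟩
  · simpa only [Nm_same] using h
  · simpa only [Nm_succ] using h.mul (contDiff_apply ℝ ℝ i)

theorem Nm_inv (a : Fin 4) {p : V} (hp : p ∈ Sph 4) (h : p a ≠ 0) :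
    Nm a (fun i => p (a.succAbove i) / p a) = (|p a| / p a) • p := by
  have h1 : ∑ j, p j ^ 2 = 1 := hp
  rw [Fin.sum_univ_succAbove _ a] at h1
  have h2 : (√(1 + ∑ i, (p (a.succAbove i) / p a) ^ 2))⁻¹ = |p a| := by
    rw [← Real.sqrt_inv, ← Real.sqrt_sq_eq_abs]
    congr 1
    simp only [div_pow, ← Finset.sum_div]
    rw [eq_sub_of_add_eq' h1]
    field_simp
    ring
  ext j
  rcases Fin.eq_self_or_eq_succAbove a j with rfl | ⟨i, rfl⟩
  · rw [Nm_same, h2, Pi.smul_apply, smul_eq_mul, div_mul_cancel₀ _ h]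
  · rw [Nm_succ, h2, Pi.smul_apply, smul_eq_mul]; ring

theorem ex_ne {p : V} (hp : p ∈ Sph 4) : ∃ a, p a ≠ 0 := by
  by_contra h
  push Not at h
  have h1 : ∑ j, p j ^ 2 = 1 := hp
  simp [h] at h1

theorem neg_mem {p : V} (hp : p ∈ Sph 4) : -p ∈ Sph 4 := mem_of_dot (by simp [dot_self hp])

theorem M_submfd : IsSubmanifold9 M := by
  intro x hx
  obtain ⟨z, hz, rfl⟩ := M_eq ▸ hx
  obtain ⟨a, ha⟩ := ex_ne hz.1
  obtain ⟨b, hb⟩ := ex_ne hz.2.1
  obtain ⟨c, hc⟩ := ex_ne hz.2.2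
  obtain ⟨σ, hσ, h0⟩ : ∃ σ : ℝ, (σ = 1 ∨ σ = -1) ∧ 0 < σ * tens z (a, b, c) := by
    rcases lt_or_gt_of_ne (mul_ne_zero (mul_ne_zero ha hb) hc) with h | h
    · exact ⟨-1, Or.inr rfl, by rw [tens_apply]; linarith⟩
    · exact ⟨1, Or.inl rfl, by rw [tens_apply]; linarith⟩
  have s2 : σ * σ = 1 := by rcases hσ with rfl | rfl <;> norm_num
  have s0 : σ ≠ 0 := by rcases hσ with rfl | rfl <;> norm_num
  refine ⟨{T | 0 < σ * T (a, b, c)}, fun w => tens (σ • Nm a (w 0), Nm b (w 1), Nm c (w 2)),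
    fun T => ![fun i => T (a.succAbove i, b, c) / T (a, b, c),
      fun i => T (a, b.succAbove i, c) / T (a, b, c),
      fun i => T (a, b, c.succAbove i) / T (a, b, c)],
    isOpen_lt continuous_const (by fun_prop), h0, ?_, ?_, ?_, ?_⟩
  · refine contDiff_euclidean.mpr fun e => ?_
    simp only [tens_apply, Pi.smul_apply, smul_eq_mul]
    exact ((contDiff_const.mul ((Nm_smooth a _).comp (contDiff_apply ℝ _ 0))).mul
      ((Nm_smooth b _).comp (contDiff_apply ℝ _ 1))).mul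
      ((Nm_smooth c _).comp (contDiff_apply ℝ _ 2))
  · have hco : ∀ e, ContDiff ℝ ∞ fun T : E => T e := fun e =>
      (EuclideanSpace.proj (𝕜 := ℝ) e).contDiff
    have hne : ∀ T ∈ {T : E | 0 < σ * T (a, b, c)}, T (a, b, c) ≠ 0 := fun T hT h => by
      simp [h] at hT
    refine contDiffOn_pi.mpr fun m => contDiffOn_pi.mpr fun i => ?_
    fin_cases m <;> exact (hco _).contDiffOn.div (hco _).contDiffOn hne
  · ext T
    constructor
    · rintro ⟨w, rfl⟩
      refine ⟨tens_mem ⟨?_, Nm_mem _ _, Nm_mem _ _⟩, ?_⟩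
      · rcases hσ with rfl | rfl
        · simpa using Nm_mem _ _
        · simpa using neg_mem (Nm_mem _ _)
      · have := mul_pos (mul_pos (Nm_pos a (w 0)) (Nm_pos b (w 1))) (Nm_pos c (w 2))
        simp only [mem_ofPred_eq, tens_apply, Pi.smul_apply, smul_eq_mul]
        calc _ < _ := this
          _ = _ := by linear_combination (-(Nm a (w 0) a * Nm b (w 1) b * Nm c (w 2) c)) * s2
    · rintro ⟨hT, h⟩
      obtain ⟨y, hy, rfl⟩ := M_eq ▸ hT
      simp only [mem_ofPred_eq, tens_apply] at h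
      have ya : y.1 a ≠ 0 := fun e => by simp [e] at h
      have yb : y.2.1 b ≠ 0 := fun e => by simp [e] at h
      have yc : y.2.2 c ≠ 0 := fun e => by simp [e] at h
      refine ⟨![fun i => y.1 (a.succAbove i) / y.1 a, fun i => y.2.1 (b.succAbove i) / y.2.1 b,
        fun i => y.2.2 (c.succAbove i) / y.2.2 c], ?_⟩
      simp only [Matrix.cons_val, Nm_inv a hy.1 ya, Nm_inv b hy.2.1 yb, Nm_inv c hy.2.2 yc]
      ext e
      simp only [tens_apply, Pi.smul_apply, smul_eq_mul]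
      have : |y.1 a| * |y.2.1 b| * |y.2.2 c| = σ * (y.1 a * y.2.1 b * y.2.2 c) := by
        rw [← abs_of_pos h, abs_mul, abs_mul, abs_mul]
        rcases hσ with rfl | rfl <;> simp
      field_simp
      linear_combination (σ * y.1 e.1 * y.2.1 e.2.1 * y.2.2 e.2.2) * this +
        (y.1 a * y.2.1 b * y.2.2 c * y.1 e.1 * y.2.1 e.2.1 * y.2.2 e.2.2) * s2
  · intro w
    have p0 := (Nm_pos a (w 0)).ne'
    have p1 := (Nm_pos b (w 1)).ne'
    have p2 := (Nm_pos c (w 2)).ne'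
    ext m i
    fin_cases m <;>
      simp only [tens_apply, Pi.smul_apply, smul_eq_mul, Fin.zero_eta, Fin.mk_one,
        Fin.reduceFinMk, Matrix.cons_val, Nm_succ] <;>
      simp only [Nm_same] at p0 p1 p2 ⊢ <;> field_simp

def Tri (a b c : Fin 3) : Prop := (a = b → a = c) ∧ (a = c → a = b) ∧ (b = c → a = b)

instance (a b c : Fin 3) : Decidable (Tri a b c) := by unfold Tri; infer_instance

set_option synthInstance.maxSize 4000 in
theorem K5 : ∀ c01 c02 c12 : Fin 3, Tri c01 c02 c12 → ∀ c03 c13 : Fin 3, Tri c01 c03 c13 →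
    ∀ c23 : Fin 3, Tri c02 c03 c23 → Tri c12 c13 c23 → ∀ c04 c14 : Fin 3, Tri c01 c04 c14 →
    ∀ c24 : Fin 3, Tri c02 c04 c24 → Tri c12 c14 c24 → ∀ c34 : Fin 3, Tri c03 c04 c34 →
    Tri c13 c14 c34 → Tri c23 c24 c34 → ∃ c : Fin 3, c01 ≠ c ∧ c02 ≠ c ∧ c12 ≠ c ∧ c03 ≠ c ∧
      c13 ≠ c ∧ c23 ≠ c ∧ c04 ≠ c ∧ c14 ≠ c ∧ c24 ≠ c ∧ c34 ≠ c := by
  decide +kernel

theorem no_five (p : Fin 5 → V) (hp : ∀ i, p i ∈ Sph 4) (h : ∀ i j, i ≠ j → p i ⬝ᵥ p j = 0) :
    False := by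
  have e : (Matrix.of p) * (Matrix.of p)ᵀ = 1 := by
    ext i j
    by_cases hij : i = j
    · subst hij; rw [one_apply_eq]; exact dot_self (hp i)
    · rw [one_apply_ne hij]; exact h i j hij
  have h1 := Matrix.rank_mul_le_left (Matrix.of p) (Matrix.of p)ᵀ
  have h2 := Matrix.rank_le_width (Matrix.of p)
  rw [e, Matrix.rank_one] at h1
  simp at h1
  omega

/-- the three coordinates -/
def co (z : V × V × V) : Fin 3 → V := ![z.1, z.2.1, z.2.2]

theorem co_mem {z : V × V × V} (hz : z ∈ S3) (c : Fin 3) : co z c ∈ Sph 4 := by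
  fin_cases c
  exacts [hz.1, hz.2.1, hz.2.2]

theorem fix_pat {z w : V × V × V} (hz : z ∈ S3) (hw : w ∈ S3) (h : Kl z (tens w) = tens w)
    (h1 : tens w ≠ tens z) (h2 : tens w ≠ -tens z) :
    ∃ c, (co z c ⬝ᵥ co w c) ^ 2 = 1 ∧ ∀ c', c' ≠ c → co z c' ⬝ᵥ co w c' = 0 := by
  have key : ∀ {p q : V}, q ∈ Sph 4 → (Rm p *ᵥ q) ⬝ᵥ q = 2 * (p ⬝ᵥ q) ^ 2 - 1 := fun hq => by
    rw [Rm_mulVec, sub_dotProduct, smul_dotProduct, dot_self hq, smul_eq_mul]; ring
  have e0 := norm_tens hw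
  nth_rewrite 1 [← h] at e0
  rw [Kl_tens] at h e0
  obtain ⟨a1, a2, a3⟩ := tens_inj ⟨Rm_mem hz.1 hw.1, Rm_mem hz.2.1 hw.2.1, Rm_mem hz.2.2 hw.2.2⟩
    hw h
  rw [inner_tens] at e0
  simp only [key hw.1, key hw.2.1, key hw.2.2] at a1 a2 a3 e0
  have dich : ∀ {t : ℝ}, (2 * t ^ 2 - 1) ^ 2 = 1 → t = 0 ∨ t ^ 2 = 1 := fun {t} ht => by
    have : t ^ 2 * (t ^ 2 - 1) = 0 := by linear_combination ht / 4
    rcases mul_eq_zero.mp this with h | h
    · exact Or.inl (pow_eq_zero_iff two_ne_zero |>.mp h)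
    · exact Or.inr (by linarith)
  rcases dich a1 with b1 | b1 <;> rcases dich a2 with b2 | b2 <;> rcases dich a3 with b3 | b3
  · rw [b1, b2, b3] at e0; norm_num at e0
  · exact ⟨2, b3, fun c' hc => by fin_cases c' <;> simp_all [co]⟩
  · exact ⟨1, b2, fun c' hc => by fin_cases c' <;> simp_all [co]⟩
  · rw [b1, b2, b3] at e0; norm_num at e0
  · exact ⟨0, b1, fun c' hc => by fin_cases c' <;> simp_all [co]⟩
  · rw [b1, b2, b3] at e0; norm_num at e0
  · rw [b1, b2, b3] at e0; norm_num at e0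
  · exfalso
    have e : tens w = ((z.1 ⬝ᵥ w.1) * (z.2.1 ⬝ᵥ w.2.1) * (z.2.2 ⬝ᵥ w.2.2)) • tens z := by
      ext a
      rw [tens_apply, PiLp.smul_apply, tens_apply, smul_eq_mul]
      conv_lhs => rw [eq_of_cs hz.1 hw.1 b1, eq_of_cs hz.2.1 hw.2.1 b2, eq_of_cs hz.2.2 hw.2.2 b3]
      simp only [Pi.smul_apply, smul_eq_mul]; ring
    have : ((z.1 ⬝ᵥ w.1) * (z.2.1 ⬝ᵥ w.2.1) * (z.2.2 ⬝ᵥ w.2.2)) ^ 2 = 1 := by
      rw [mul_pow, mul_pow, b1, b2, b3]; norm_num
    rcases sq_eq_one_iff.mp this with h | h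
    · exact h1 (by rw [e, h, one_smul])
    · exact h2 (by rw [e, h, neg_one_smul])

theorem no_five' (z : Fin 5 → V × V × V) (hz : ∀ i, z i ∈ S3)
    (h : ∀ i j, i ≠ j → ∃ c, (co (z i) c ⬝ᵥ co (z j) c) ^ 2 = 1 ∧
      ∀ c', c' ≠ c → co (z i) c' ⬝ᵥ co (z j) c' = 0) : False := by
  choose! col h1 h2 using h
  have iff : ∀ i j, i ≠ j → ∀ c, co (z i) c ⬝ᵥ co (z j) c ≠ 0 → col i j = c := fun i j hij c hc =>
    by_contra fun hn => hc (h2 i j hij c (Ne.symm hn))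
  have tr : ∀ c i j k, (co (z i) c ⬝ᵥ co (z j) c) ^ 2 = 1 → (co (z i) c ⬝ᵥ co (z k) c) ^ 2 = 1 →
      co (z j) c ⬝ᵥ co (z k) c ≠ 0 := fun c i j k e1 e2 e => by
    rw [eq_of_cs (co_mem (hz i) c) (co_mem (hz j) c) e1, smul_dotProduct, smul_eq_mul] at e
    rcases mul_eq_zero.mp e with e | e
    · rw [e] at e1; norm_num at e1
    · rw [e] at e2; norm_num at e2
  have T : ∀ i j k, i ≠ j → i ≠ k → j ≠ k → Tri (col i j) (col i k) (col j k) := by
    intro i j k hij hik hjk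
    have a := h1 i j hij
    have b := h1 i k hik
    have c := h1 j k hjk
    refine ⟨fun e => ?_, fun e => ?_, fun e => ?_⟩
    · exact (iff j k hjk _ (tr _ i j k a (e ▸ b))).symm
    · rw [dotProduct_comm] at a
      exact (iff i k hik _ (tr _ j i k a (e ▸ c))).symm
    · rw [dotProduct_comm] at b c
      exact iff i j hij _ (tr _ k i j b (e ▸ c))
  obtain ⟨c, hc⟩ := K5 _ _ _ (T 0 1 2 (by decide) (by decide) (by decide)) _ _
    (T 0 1 3 (by decide) (by decide) (by decide)) _ (T 0 2 3 (by decide) (by decide) (by decide))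
    (T 1 2 3 (by decide) (by decide) (by decide)) _ _ (T 0 1 4 (by decide) (by decide) (by decide))
    _ (T 0 2 4 (by decide) (by decide) (by decide)) (T 1 2 4 (by decide) (by decide) (by decide))
    _ (T 0 3 4 (by decide) (by decide) (by decide)) (T 1 3 4 (by decide) (by decide) (by decide))
    (T 2 3 4 (by decide) (by decide) (by decide))
  have lt : ∀ i j, i < j → co (z i) c ⬝ᵥ co (z j) c = 0 := fun i j hij => by
    refine h2 i j hij.ne c (Ne.symm ?_)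
    obtain ⟨t1, t2, t3, t4, t5, t6, t7, t8, t9, t10⟩ := hc
    fin_cases i <;> fin_cases j <;> first | assumption | exact absurd hij (by decide)
  refine no_five (fun i => co (z i) c) (fun i => co_mem (hz i) c) fun i j hij => ?_
  rcases lt_or_gt_of_ne hij with h | h
  · exact lt i j h
  · rw [dotProduct_comm]; exact lt j i h

theorem four (θ : E → V × V × V) (hθ : ∀ x, θ x ∈ S3) (hθ' : ∀ x ∈ M, tens (θ x) = x)
    (B : Set E) (hB : B ⊆ M) (h : ∀ x ∈ B, ∀ y ∈ B, Kl (θ x) y = y)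
    (hn : ∀ x ∈ B, ∀ y ∈ B, y ≠ -x) : B.encard ≤ 4 := by
  by_contra hc
  obtain ⟨t, ht, e⟩ := exists_subset_encard_eq (s := B) (k := 5)
    (Order.add_one_le_of_lt (not_le.mp hc))
  have tf : t.Finite := finite_of_encard_eq_coe (k := 5) e
  have : Fintype t := tf.fintype
  have hcard : Fintype.card t = 5 := by
    rw [← Set.coe_fintypeCard] at e
    exact_mod_cast e
  let f : Fin 5 → t := (Fintype.equivFinOfCardEq hcard).symm
  have fi : Function.Injective f := (Fintype.equivFinOfCardEq hcard).symm.injective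
  refine no_five' (fun i => θ (f i)) (fun _ => hθ _) fun i j hij => ?_
  have bi := ht (f i).2
  have bj := ht (f j).2
  refine fix_pat (hθ _) (hθ _) ?_ ?_ ?_ <;> simp only [hθ' _ (hB bi), hθ' _ (hB bj)]
  · exact h _ bi _ bj
  · exact fun e => hij (fi (Subtype.ext e.symm))
  · exact hn _ bi _ bj

theorem eight (θ : E → V × V × V) (hθ : ∀ x, θ x ∈ S3) (hθ' : ∀ x ∈ M, tens (θ x) = x)
    (A : Set E) (hA : A ⊆ M) (h : ∀ x ∈ A, ∀ y ∈ A, Kl (θ x) y = y) : A.encard ≤ 8 := by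
  obtain ⟨o, -⟩ := exists_wellOrder E
  have e : A ⊆ {x ∈ A | x < -x} ∪ {x ∈ A | -x < x} := fun x hx => by
    rcases lt_trichotomy x (-x) with h | h | h
    · exact Or.inl ⟨hx, h⟩
    · have h1 := norm_tens (hθ x)
      rw [hθ' x (hA hx)] at h1
      have h2 := h1
      nth_rewrite 2 [h] at h2
      rw [inner_neg_right] at h2
      linarith
    · exact Or.inr ⟨hx, h⟩
  refine (encard_le_encard e).trans ((encard_union_le _ _).trans ?_)
  refine (add_le_add (four θ hθ hθ' _ (fun x hx => hA hx.1) (fun x hx y hy => h x hx.1 y hy.1) ?_)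
    (four θ hθ hθ' _ (fun x hx => hA hx.1) (fun x hx y hy => h x hx.1 y hy.1) ?_)).trans
    (by norm_num)
  · rintro x hx _ hy rfl
    have := hy.2
    rw [neg_neg] at this
    exact lt_asymm hx.2 this
  · rintro x hx _ hy rfl
    have := hy.2
    rw [neg_neg] at this
    exact lt_asymm hx.2 this

end Pool.Agent.H.MP_efd99a_gt
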