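import Pool.Agent.H.MP_efd99a_gt.C

set_option autoImplicit false

/-! Nine independent cohomology classes. -/

namespace Pool.Agent.H.MP_efd99a_gt

open Set Filter Topology Matrix Pool.Agent.Lib.helper7.AS
open scoped RealInnerProductSpace

/-- locally zero Alexander-Spanier cochains on `n`-tuples -/
def locZero (X : Type) [TopologicalSpace X] (n : ℕ) :
    Submodule (ZMod 2) ((Fin n → X) → ZMod 2) where
  carrier := {a | ∀ x : X, ∃ U ∈ 𝓝 x, ∀ t : Fin n → X, (∀ i, t i ∈ U) → a t = 0}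
  zero_mem' := fun _ => ⟨univ, univ_mem, fun _ _ => rfl⟩
  add_mem' := fun ha hb x => by
    obtain ⟨U, hU, h⟩ := ha x
    obtain ⟨W, hW, h'⟩ := hb x
    exact ⟨U ∩ W, inter_mem hU hW, fun t ht => by
      rw [Pi.add_apply, h t fun i => (ht i).1, h' t fun i => (ht i).2, add_zero]⟩
  smul_mem' := fun c a ha x => by
    obtain ⟨U, hU, h⟩ := ha x
    exact ⟨U, hU, fun t ht => by rw [Pi.smul_apply, h t ht, smul_zero]⟩

/-- the Alexander-Spanier coboundary -/
def cob (X : Type) (n : ℕ) :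
    ((Fin n → X) → ZMod 2) →ₗ[ZMod 2] ((Fin (n + 1) → X) → ZMod 2) where
  toFun a t := ∑ i : Fin (n + 1), (-1) ^ (i : ℕ) * a fun j => t (i.succAbove j)
  map_add' a b := by funext t; simp [mul_add, Finset.sum_add_distrib]
  map_smul' c a := by funext t; simp [Finset.mul_sum, mul_left_comm]

/-- `k`-cocycles -/
def cocycles (X : Type) [TopologicalSpace X] (k : ℕ) :
    Submodule (ZMod 2) ((Fin (k + 1) → X) → ZMod 2) :=
  (locZero X (k + 2)).comap (cob X (k + 1))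

/-- `k`-coboundaries -/
def coboundaries (X : Type) [TopologicalSpace X] :
    (k : ℕ) → Submodule (ZMod 2) ((Fin (k + 1) → X) → ZMod 2)
  | 0 => locZero X 1
  | k + 1 => locZero X (k + 2) ⊔ LinearMap.range (cob X (k + 1))

theorem Bk_le (X : Type) [TopologicalSpace X] (k : ℕ) : Bk X k ≤ coboundaries X k := by
  refine Submodule.span_le.mpr ?_
  rintro a (h | ⟨hk, b, rfl⟩)
  · cases k with
    | zero => exact h
    | succ k => exact Submodule.mem_sup_left h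
  · cases k with
    | zero => exact absurd rfl hk
    | succ k => exact Submodule.mem_sup_right ⟨b, rfl⟩

noncomputable def sg (t : ℝ) : ZMod 2 := if t < 0 then 1 else 0

theorem sg_neg {t : ℝ} (h : t < 0) : sg t = 1 := if_pos h

theorem sg_pos {t : ℝ} (h : 0 < t) : sg t = 0 := if_neg h.le.not_gt

theorem sg_three {a b c : V} (ha : a ∈ Sph 4) (hb : b ∈ Sph 4) (hc : c ∈ Sph 4)
    (h1 : 16 / 25 ≤ (a ⬝ᵥ b) ^ 2) (h2 : 16 / 25 ≤ (a ⬝ᵥ c) ^ 2) :
    sg (b ⬝ᵥ c) = sg (a ⬝ᵥ c) - sg (a ⬝ᵥ b) := by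
  have p := dot_nn ((b - (a ⬝ᵥ b) • a) - (c - (a ⬝ᵥ c) • a))
  have q := dot_nn ((b - (a ⬝ᵥ b) • a) + (c - (a ⬝ᵥ c) • a))
  simp only [sub_dotProduct, dotProduct_sub, add_dotProduct, dotProduct_add, smul_dotProduct,
    dotProduct_smul, dot_self ha, dot_self hb, dot_self hc, dotProduct_comm b a,
    dotProduct_comm c a, dotProduct_comm c b, smul_eq_mul] at p q
  set β := a ⬝ᵥ b
  set γ := a ⬝ᵥ c
  set δ := b ⬝ᵥ c
  have k : ∀ {t : ℝ}, 16 / 25 ≤ t ^ 2 → t ≤ -(4 / 5) ∨ 4 / 5 ≤ t := fun {t} h => by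
    by_contra hn
    push Not at hn
    nlinarith [hn.1, hn.2]
  rcases k h1 with e1 | e1 <;> rcases k h2 with e2 | e2
  · rw [sg_pos (by nlinarith), sg_neg (by linarith), sg_neg (by linarith)]; decide
  · rw [sg_neg (by nlinarith), sg_pos (by linarith), sg_neg (by linarith)]; decide
  · rw [sg_neg (by nlinarith), sg_neg (by linarith), sg_pos (by linarith)]; decide
  · rw [sg_pos (by nlinarith), sg_pos (by linarith), sg_pos (by linarith)]; decide

theorem co_of {z w : V × V × V} {p : ℝ → Prop}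
    (h : p (z.1 ⬝ᵥ w.1) ∧ p (z.2.1 ⬝ᵥ w.2.1) ∧ p (z.2.2 ⬝ᵥ w.2.2)) (c : Fin 3) :
    p (co z c ⬝ᵥ co w c) := by
  fin_cases c
  exacts [h.1, h.2.1, h.2.2]

theorem close_pos {p q : V} (hp : p ∈ Sph 4) (hq : q ∈ Sph 4) (h : dist p q < 1 / 2) :
    0 < p ⬝ᵥ q := by
  have h1 : ∀ i, (p i - q i) ^ 2 ≤ 1 / 4 := fun i => by
    have := (dist_le_pi_dist p q i).trans_lt h
    rw [Real.dist_eq, abs_lt] at this
    nlinarith [this.1, this.2]
  have a : ∑ j, p j ^ 2 = 1 := hp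
  have b : ∑ j, q j ^ 2 = 1 := hq
  simp only [Fin.sum_univ_four, dotProduct] at a b ⊢
  nlinarith [h1 0, h1 1, h1 2, h1 3]

theorem cob_eq {X : Type} (n : ℕ) (a : List X → ZMod 2) (t : Fin (n + 1) → X) :
    cob X n (fun s => a (List.ofFn s)) t = d (List.ofFn t) a := by
  rw [d_ofFn]
  show ∑ i : Fin (n + 1), (-1) ^ (i : ℕ) * a (List.ofFn fun j => t (i.succAbove j)) = _
  refine Finset.sum_congr rfl fun i _ => ?_
  rw [CharTwo.neg_eq, one_pow, one_mul]
  rfl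

section
variable (θ : E → V × V × V) (hθ : ∀ x, θ x ∈ S3) (hθ' : ∀ x ∈ M, tens (θ x) = x)

noncomputable def Wc (c : Fin 3) (m m' : M) : ZMod 2 := sg (co (θ m) c ⬝ᵥ co (θ m') c)

noncomputable def Ph (c : Fin 3) (z : V × V × V) : ZMod 2 := sg (co (θ (tens z)) c ⬝ᵥ co z c)

noncomputable def cls (k : ℕ) (w : ℕ → Fin 3) : (Fin (k + 1) → M) → ZMod 2 :=
  fun t => pm (fun j => Wc θ (w j)) (List.ofFn t)

include hθ hθ'

theorem cls_cocycle (k : ℕ) (w : ℕ → Fin 3) : cls θ k w ∈ cocycles M k := by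
  intro x
  have hx : ⟪(x : E), (x : E)⟫ = 1 := by rw [← hθ' x x.2]; exact norm_tens (hθ _)
  refine ⟨{m : M | 4 / 5 < ⟪(x : E), (m : E)⟫}, (isOpen_lt continuous_const
    (by fun_prop)).mem_nhds (by simp only [mem_ofPred_eq, hx]; norm_num), fun t ht => ?_⟩
  have big : ∀ i c, 16 / 25 ≤ (co (θ x) c ⬝ᵥ co (θ (t i)) c) ^ 2 := fun i => by
    have h : 4 / 5 < ⟪(x : E), (t i : E)⟫ := ht i
    rw [← hθ' x x.2, ← hθ' (t i) (t i).2, inner_tens] at h
    exact co_of (p := fun r => 16 / 25 ≤ r ^ 2) (three_big (cs (hθ _).1 (hθ _).1)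
      (cs (hθ _).2.1 (hθ _).2.1) (cs (hθ _).2.2 (hθ _).2.2) (by nlinarith))
  unfold cls
  rw [cob_eq, d_congr _ _ (mon k fun j => Wc θ (w j) x), d_mon]
  intro m hm e
  refine mon_eq k _ _ m (by simpa using e) fun j a ha b hb => ?_
  obtain ⟨i, rfl⟩ := List.mem_ofFn.mp (hm.subset ha)
  obtain ⟨i', rfl⟩ := List.mem_ofFn.mp (hm.subset hb)
  exact sg_three (co_mem (hθ _) _) (co_mem (hθ _) _) (co_mem (hθ _) _) (big i _) (big i' _)

theorem th_sign {z : V × V × V} (hz : z ∈ S3) (c : Fin 3) :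
    co (θ (tens z)) c = co z c ∨ co (θ (tens z)) c = -co z c := by
  have h := co_of (p := fun r => r ^ 2 = 1) (tens_inj hz (hθ _) (hθ' _ (tens_mem hz)).symm) c
  rw [eq_of_cs (co_mem hz c) (co_mem (hθ _) c) h]
  rcases sq_eq_one_iff.mp h with h | h <;> rw [h]
  · exact Or.inl (one_smul _ _)
  · exact Or.inr (neg_one_smul _ _)

omit hθ hθ' in
theorem ex_proj : ∃ π : V × V × V → M, ∀ z ∈ S3, (π z : E) = tens z := by
  classical
  obtain ⟨x, hx⟩ := M_conn.nonempty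
  exact ⟨fun z => if h : z ∈ S3 then ⟨tens z, tens_mem h⟩ else ⟨x, hx⟩,
    fun z hz => by simp only [dif_pos hz]⟩

omit hθ hθ' in
theorem pull (π : V × V × V → M) (hπ : ∀ z ∈ S3, (π z : E) = tens z) (n : ℕ)
    (a : (Fin (n + 1) → M) → ZMod 2) (ha : a ∈ locZero M (n + 1)) :
    ∃ e > 0, ∀ t : Fin (n + 1) → V × V × V, (∀ i, t i ∈ S3) → (∀ i, dist (t i) (t 0) < e) →
      a (fun i => π (t i)) = 0 := by
  choose U hU h using ha
  haveI : CompactSpace M := isCompact_iff_compactSpace.mp M_cpt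
  obtain ⟨δ, hδ, h1⟩ := lebesgue_number_lemma_of_metric (c := fun x => interior (U x))
    isCompact_univ (fun _ => isOpen_interior)
    fun x _ => mem_iUnion.mpr ⟨x, mem_interior_iff_mem_nhds.mpr (hU x)⟩
  obtain ⟨e, he, h2⟩ := Metric.uniformContinuousOn_iff.mp
    (S3_cpt.uniformContinuousOn_of_continuous tens_cont.continuousOn) δ hδ
  refine ⟨e, he, fun t ht hd => ?_⟩
  obtain ⟨x, hx⟩ := h1 (π (t 0)) (mem_univ _)
  refine h x _ fun i => interior_subset (hx ?_)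
  rw [Metric.mem_ball, Subtype.dist_eq, hπ _ (ht i), hπ _ (ht 0)]
  exact h2 _ (ht i) _ (ht 0) (hd i)

theorem W_Ph (π : V × V × V → M) (hπ : ∀ z ∈ S3, (π z : E) = tens z) (c : Fin 3)
    {x y : V × V × V} (hx : x ∈ S3) (hy : y ∈ S3) (h : dist x y < 1 / 2) :
    Wc θ c (π x) (π y) = Ph θ c y - Ph θ c x := by
  have h0 : 0 < co x c ⬝ᵥ co y c := by
    rw [Prod.dist_eq, Prod.dist_eq, max_lt_iff, max_lt_iff] at h
    exact co_of (p := fun r => 0 < r) ⟨close_pos hx.1 hy.1 h.1, close_pos hx.2.1 hy.2.1 h.2.1,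
      close_pos hx.2.2 hy.2.2 h.2.2⟩ c
  rw [Wc, Ph, Ph, hπ x hx, hπ y hy]
  rcases th_sign θ hθ hθ' hx c with e | e <;> rcases th_sign θ hθ hθ' hy c with e' | e' <;>
    simp only [e, e', neg_dotProduct, dotProduct_neg, neg_neg, dot_self (co_mem hx c),
      dot_self (co_mem hy c), sg_pos h0, sg_neg (neg_neg_of_pos h0), sg_pos one_pos,
      sg_neg neg_one_lt_zero] <;> decide

omit hθ hθ' in
theorem ex_u (π : V × V × V → M) (hπ : ∀ z ∈ S3, (π z : E) = tens z) (k : ℕ)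
    (a : (Fin (k + 1) → M) → ZMod 2) (ha : a ∈ coboundaries M k) :
    ∃ u : List M → ZMod 2, u [] = 0 ∧ ∃ e > 0, ∀ t : Fin (k + 1) → V × V × V, (∀ i, t i ∈ S3) →
      (∀ i, dist (t i) (t 0) < e) → a (fun i => π (t i)) = d (List.ofFn fun i => π (t i)) u := by
  cases k with
  | zero =>
    obtain ⟨e, he, h⟩ := pull π hπ 0 a ha
    exact ⟨0, rfl, e, he, fun t h1 h2 => by rw [h t h1 h2, d_zero]; intros; rfl⟩
  | succ k =>
    obtain ⟨y, hy, _, ⟨b, rfl⟩, rfl⟩ := Submodule.mem_sup.mp ha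
    obtain ⟨e, he, h⟩ := pull π hπ _ y hy
    refine ⟨fun l => if h : l.length = k + 1 then b fun i => l.get (i.cast h.symm) else 0,
      by simp, e, he, fun t h1 h2 => ?_⟩
    rw [Pi.add_apply, h t h1 h2, zero_add, ← cob_eq]
    refine congrArg (fun f => cob M (k + 1) f fun i => π (t i)) (funext fun s => ?_)
    rw [dif_pos List.length_ofFn]
    simp only [List.get_ofFn]
    rfl

theorem nob (k : ℕ) (hk : k ≤ 3) {ι : Type} [Fintype ι] (c : ι → ZMod 2) (w : ι → ℕ → Fin 3)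
    (h : ∑ i, c i • cls θ k (w i) ∈ coboundaries M k) (ε : Fin 3 → ZMod 2)
    (hε : ε 0 + ε 1 + ε 2 = 0) : ∑ i, c i * ∏ j ∈ Finset.range k, ε (w i j) = 0 := by
  obtain ⟨π, hπ⟩ := ex_proj
  obtain ⟨u, u0, e, he, hu⟩ := ex_u π hπ k _ h
  obtain ⟨s, hs⟩ : ∃ s : Fin 3 → ℝ, ∀ c, (ε c = 0 ∧ s c = 1) ∨ (ε c = 1 ∧ s c = -1) :=
    ⟨fun c => if ε c = 0 then 1 else -1, fun c => by
      have : ∀ a : ZMod 2, a = 0 ∨ a = 1 := by decide
      rcases this (ε c) with h | h <;> simp [h]⟩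
  have s2 : ∀ c, s c * s c = 1 := fun c => by
    rcases hs c with h | h <;> rw [h.2] <;> norm_num
  have s3 : s 0 * s 1 * s 2 = 1 := by
    rcases hs 0 with a | a <;> rcases hs 1 with b | b <;> rcases hs 2 with c | c <;>
      rw [a.1, b.1, c.1] at hε <;> rw [a.2, b.2, c.2] <;>
      first | exact absurd hε (by decide) | norm_num
  let g : V × V × V → V × V × V := fun z => (s 0 • z.1, s 1 • z.2.1, s 2 • z.2.2)
  have sm : ∀ c, ∀ p ∈ Sph 4, s c • p ∈ Sph 4 := fun c p hp => mem_of_dot (by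
    rw [smul_dotProduct, dotProduct_smul, dot_self hp, smul_smul, s2, one_smul])
  have mg : MapsTo g S3 S3 := fun z hz => ⟨sm 0 _ hz.1, sm 1 _ hz.2.1, sm 2 _ hz.2.2⟩
  have tg : ∀ z, tens (g z) = tens z := fun z => by
    ext a
    simp only [tens_apply, g, Pi.smul_apply, smul_eq_mul]
    linear_combination (z.1 a.1 * z.2.1 a.2.1 * z.2.2 a.2.2) * s3
  have cg : ∀ z c, co (g z) c = s c • co z c := fun z c => by fin_cases c <;> rfl
  refine descent S3_conn.nonempty g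
    (S3_cpt.uniformContinuousOn_of_continuous (by fun_prop)) mg
    (fun z _ => by simp only [g, smul_smul, s2, one_smul]) k (fun j hj => P_S3 j (by omega)) c
    (fun i j => Ph θ (w i j)) (fun i j => ε (w i j)) (fun i j z hz => ?_)
    (fun l => u (l.map π)) (fun l hl => ?_) u0
    ⟨min e (1 / 2), by positivity, fun l hl => ?_⟩
  · rw [Ph, Ph, tg, cg]
    rcases th_sign θ hθ hθ' hz (w i j) with e | e <;> rcases hs (w i j) with e' | e' <;>
      simp only [e, e'.1, e'.2, one_smul, neg_smul, neg_dotProduct, dotProduct_neg, neg_neg,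
        dot_self (co_mem hz _), sg_pos one_pos, sg_neg neg_one_lt_zero] <;> decide
  · rw [List.map_map]
    congr 1
    exact List.map_congr_left fun z hz => Subtype.ext (by
      rw [Function.comp, hπ _ (mg (hl z hz)), hπ _ (hl z hz), tg])
  · obtain ⟨t, rfl⟩ : ∃ t : Fin (k + 1) → V × V × V, l = List.ofFn t :=
      ⟨fun i => l.get (i.cast hl.1.symm), List.ext_get (by simp [hl.1]) fun n h1 h2 => by
        rw [List.get_ofFn]; rfl⟩
    have m : ∀ i, t i ∈ List.ofFn t := fun i => List.mem_ofFn.mpr ⟨i, rfl⟩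
    have := hu t (fun i => hl.2.1 _ (m i))
      fun i => (hl.2.2 _ (m i) _ (m 0)).trans_le (min_le_left _ _)
    rw [dd, d_map, List.map_ofFn]
    refine Eq.trans ?_ this
    simp only [Finset.sum_apply, Pi.smul_apply, smul_eq_mul, cls]
    refine Finset.sum_congr rfl fun i _ => ?_
    rw [show (List.ofFn fun i => π (t i)) = (List.ofFn t).map π from List.map_ofFn.symm, pm_map,
      mon_eq k (fun j => Ph θ (w i j)) _ _ hl.1]
    exact fun j x hx y hy => W_Ph θ hθ hθ' π hπ _ (hl.2.1 x hx) (hl.2.1 y hy)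
      ((hl.2.2 x hx y hy).trans_le (min_le_right _ _))

theorem lb (k : ℕ) (hk : k ≤ 3) (n : ℕ) (w : Fin n → ℕ → Fin 3)
    (h : ∀ c : Fin n → ZMod 2, (∀ ε : Fin 3 → ZMod 2, ε 0 + ε 1 + ε 2 = 0 →
      ∑ i, c i * ∏ j ∈ Finset.range k, ε (w i j) = 0) → ∀ i, c i = 0) :
    (n : Cardinal) ≤ betti M k := by
  have li : LinearIndependent (ZMod 2) fun i : Fin n =>
      (⟨(Bk M k).mkQ (cls θ k (w i)), Submodule.mem_map_of_mem (Submodule.subset_span
        (cls_cocycle θ hθ hθ' k (w i)))⟩ : (Zk M k).map (Bk M k).mkQ) := by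
    refine Fintype.linearIndependent_iff.mpr fun c hc => h c (nob θ hθ hθ' k hk c w ?_)
    have := congrArg Subtype.val hc
    simp only [Submodule.coe_sum, Submodule.coe_smul, Submodule.coe_zero, ← map_smul,
      ← map_sum] at this
    exact Bk_le _ _ ((Submodule.Quotient.mk_eq_zero _).mp this)
  simpa [betti, qdim] using li.cardinal_le_rank

end

def ww : Fin 3 → ℕ → Fin 3 := ![fun _ => 0, fun _ => 1, fun j => if j = 0 then 0 else 1]

theorem main : IsCompact M ∧ IsConnected M ∧ IsSubmanifold9 M ∧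
    ∃ s : E → E ≃ₗᵢ[ℝ] E,
      (∀ x ∈ M, s x '' M = M ∧ s x x = x ∧ ∀ v ∈ tang M x, s x v = -v) ∧
      (∀ A ⊆ M, (∀ x ∈ A, ∀ y ∈ A, s x y = y) → A.encard ≤ 8) ∧
      9 ≤ Cardinal.sum fun k => betti M k := by
  classical
  obtain ⟨θ, hθ, hθ'⟩ : ∃ θ : E → V × V × V, (∀ x, θ x ∈ S3) ∧ ∀ x ∈ M, tens (θ x) = x := by
    obtain ⟨z0, h0⟩ := S3_conn.nonempty
    have : ∀ x, ∃ z ∈ S3, x ∈ M → tens z = x := fun x => by
      by_cases hx : x ∈ M
      · obtain ⟨z, hz, e⟩ := M_eq ▸ hx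
        exact ⟨z, hz, fun _ => e⟩
      · exact ⟨z0, h0, fun h => absurd h hx⟩
    choose θ h1 h2 using this
    exact ⟨θ, h1, h2⟩
  refine ⟨M_cpt, M_conn, M_submfd, fun x => Ki (θ x) (hθ x), fun x hx => ⟨Ki_image _ _, ?_, ?_⟩,
    fun A hA h => eight θ hθ hθ' A hA h, ?_⟩
  · have := Kl_self (hθ x)
    rwa [hθ' x hx] at this
  · intro v hv
    exact Kl_tang (hθ x) (by rwa [hθ' x hx])
  · have b0 := lb θ hθ hθ' 0 (by norm_num) 1 (fun _ _ => 0) (by decide)
    have b1 := lb θ hθ hθ' 1 (by norm_num) 2 (fun i _ => i.castSucc) (by decide)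
    have b2 := lb θ hθ hθ' 2 (by norm_num) 3 ww (by decide)
    have b3 := lb θ hθ hθ' 3 (by norm_num) 3 ww (by decide)
    rw [Cardinal.sum_nat_eq_add_sum_succ, Cardinal.sum_nat_eq_add_sum_succ,
      Cardinal.sum_nat_eq_add_sum_succ, Cardinal.sum_nat_eq_add_sum_succ]
    refine le_trans ?_ (add_le_add b0 (add_le_add b1 (add_le_add b2 (add_le_add b3 zero_le))))
    norm_num

end Pool.Agent.H.MP_efd99a_gt
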